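import Pool.Agent.Q85.CL.Ang

/-!
The directions (without orientation) along an analytic curve of vectors do not jump from a closed
set to a disjoint closed set.
-/

set_option autoImplicit false

open Set Metric Filter Topology
open H459R3.NS Pool.Agent.W268.NS Pool.Agent.Q67.VD

namespace Pool.Agent.J4H12.VA

open Pool.Agent.Q85.CC Pool.Agent.Q85.CL

/-- The direction of a vector. -/
noncomputable def dir (w : V) : V := (len w)⁻¹ • w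

lemma dir_smul {a : ℝ} (ha : a ≠ 0) (w : V) : dir (a • w) = dir w ∨ dir (a • w) = -dir w := by
  unfold dir
  rw [len_smulI, smul_smul]
  rcases lt_or_gt_of_ne ha with h | h
  · right
    rw [abs_of_neg h, ← neg_smul]
    congr 1
    rw [mul_inv, mul_comm (-a)⁻¹, mul_assoc, ← neg_inv, neg_mul, inv_mul_cancel₀ ha, mul_neg,
      mul_one]
  · left
    rw [abs_of_pos h]
    congr 1
    rw [mul_inv, mul_comm a⁻¹, mul_assoc, inv_mul_cancel₀ ha, mul_one]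

lemma dir_cont {w : V} (hw : w ≠ 0) : ContinuousAt dir w := by
  unfold dir
  exact (len_contI.continuousAt.inv₀ (len_posI hw).ne').smul continuousAt_id

lemma mem_of_smul {C : Set V} (hC : ∀ w ∈ C, -w ∈ C) {a : ℝ} (ha : a ≠ 0) {w : V} :
    dir (a • w) ∈ C ↔ dir w ∈ C := by
  rcases dir_smul ha w with h | h
  · rw [h]
  · rw [h]
    exact ⟨fun h1 => by simpa using hC _ h1, fun h1 => hC _ h1⟩

/-- The curve is in `C` near `s`. -/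
def UU (g : ℝ → V) (C : Set V) : Set ℝ :=
  {s | ∀ᶠ s' in 𝓝 s, s' ∈ Icc (0 : ℝ) 1 → s' ≠ s → g s' ≠ 0 ∧ dir (g s') ∈ C}

lemma isOpen_UU (g : ℝ → V) (C : Set V) : IsOpen (UU g C) := by
  rw [isOpen_iff_mem_nhds]
  intro s hs
  have h1 := eventually_eventually_nhds.2 hs
  filter_upwards [h1] with s1 h2
  by_cases h3 : s1 = s
  · rw [h3]
    exact hs
  · show ∀ᶠ s' in 𝓝 s1, s' ∈ Icc (0 : ℝ) 1 → s' ≠ s1 → g s' ≠ 0 ∧ dir (g s') ∈ C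
    filter_upwards [h2, (continuousAt_id.eventually_ne h3 : ∀ᶠ z in 𝓝 s1, id z ≠ s)] with z hz hzs
    exact fun h4 _ => hz h4 hzs

lemma nebot {s : ℝ} (hs : s ∈ Icc (0 : ℝ) 1) : (𝓝[Icc (0 : ℝ) 1 \ {s}] s).NeBot := by
  rcases eq_or_lt_of_le hs.2 with h | h
  · have h1 : 𝓝[Ioo 0 s] s ≤ 𝓝[Icc (0 : ℝ) 1 \ {s}] s :=
      nhdsWithin_mono _ fun z hz => ⟨⟨hz.1.le, hz.2.le.trans hs.2⟩, hz.2.ne⟩
    have h2 : (𝓝[Ioo 0 s] s).NeBot := by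
      rw [nhdsWithin_Ioo_eq_nhdsLT (by rw [h]; exact one_pos)]
      infer_instance
    exact h2.mono h1
  · have h1 : 𝓝[Ioo s 1] s ≤ 𝓝[Icc (0 : ℝ) 1 \ {s}] s :=
      nhdsWithin_mono _ fun z hz => ⟨⟨hs.1.trans hz.1.le, hz.2.le⟩, hz.1.ne'⟩
    have h2 : (𝓝[Ioo s 1] s).NeBot := by
      rw [nhdsWithin_Ioo_eq_nhdsGT h]
      infer_instance
    exact h2.mono h1

lemma UU_ev {g : ℝ → V} {C : Set V} {s : ℝ} (h : s ∈ UU g C) :
    ∀ᶠ s' in 𝓝[Icc (0 : ℝ) 1 \ {s}] s, g s' ≠ 0 ∧ dir (g s') ∈ C := by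
  rw [eventually_nhdsWithin_iff]
  filter_upwards [h] with z hz
  exact fun h1 => hz h1.1 h1.2

lemma of_UU {g : ℝ → V} {C : Set V} {s : ℝ} (hC : IsClosed C) (hs : s ∈ Icc (0 : ℝ) 1)
    (hg : ContinuousAt g s) (hgs : g s ≠ 0) (h : s ∈ UU g C) : dir (g s) ∈ C := by
  have := nebot hs
  have h1 : Tendsto (fun z => dir (g z)) (𝓝[Icc (0 : ℝ) 1 \ {s}] s) (𝓝 (dir (g s))) :=
    ((dir_cont hgs).comp (f := g) hg).tendsto.mono_left nhdsWithin_le_nhds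
  exact hC.mem_of_tendsto h1 ((UU_ev h).mono fun z hz => hz.2)

/-- Near every point the directions are in one of the two sets. -/
lemma UU_or {g : ℝ → V} {A B : Set V} (hA : IsClosed A) (hB : IsClosed B)
    (hAs : ∀ w ∈ A, -w ∈ A) (hBs : ∀ w ∈ B, -w ∈ B) (hAB : Disjoint A B)
    (hcov : ∀ s ∈ Icc (0 : ℝ) 1, g s ≠ 0 → dir (g s) ∈ A ∪ B) {s : ℝ} (hs : s ∈ Icc (0 : ℝ) 1)
    (hg : AnalyticAt ℝ g s) (hne : ¬ ∀ᶠ z in 𝓝 s, g z = 0) : s ∈ UU g A ∨ s ∈ UU g B := by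
  obtain ⟨n, w, hw, hws, hgw⟩ := hg.exists_eventuallyEq_pow_smul_nonzero_iff.2 hne
  have hw0 : ∀ᶠ z in 𝓝 s, w z ≠ 0 := hw.continuousAt.eventually_ne hws
  have hwd : ContinuousAt (fun z => dir (w z)) s := (dir_cont hws).comp (f := w) hw.continuousAt
  have hcase : ∀ᶠ z in 𝓝 s, z ∈ Icc (0 : ℝ) 1 → z ≠ s → g z ≠ 0 ∧
      (dir (g z) ∈ A ↔ dir (w z) ∈ A) ∧ (dir (g z) ∈ B ↔ dir (w z) ∈ B) ∧
      (dir (w z) ∈ A ∨ dir (w z) ∈ B) := by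
    filter_upwards [hw0, hgw] with z h1 h2
    intro h3 h4
    have h5 : (z - s) ^ n ≠ 0 := pow_ne_zero _ (sub_ne_zero.2 h4)
    have h6 : g z ≠ 0 := by
      rw [h2]
      exact smul_ne_zero h5 h1
    have h7 : dir (g z) ∈ A ↔ dir (w z) ∈ A := by
      rw [h2]
      exact mem_of_smul hAs h5
    have h8 : dir (g z) ∈ B ↔ dir (w z) ∈ B := by
      rw [h2]
      exact mem_of_smul hBs h5
    exact ⟨h6, h7, h8, (hcov z h3 h6).imp h7.1 h8.1⟩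
  have hmem : dir (w s) ∈ A ∪ B := by
    have := nebot hs
    have h1 : Tendsto (fun z => dir (w z)) (𝓝[Icc (0 : ℝ) 1 \ {s}] s) (𝓝 (dir (w s))) :=
      hwd.tendsto.mono_left nhdsWithin_le_nhds
    refine (hA.union hB).mem_of_tendsto h1 ?_
    rw [eventually_nhdsWithin_iff]
    filter_upwards [hcase] with z hz
    exact fun h2 => (hz h2.1 h2.2).2.2.2
  rcases hmem with h | h
  · left
    have h1 : dir (w s) ∉ B := fun h2 => (Set.disjoint_left.1 hAB) h h2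
    have h2 : ∀ᶠ z in 𝓝 s, dir (w z) ∉ B := hwd.eventually (hB.isOpen_compl.mem_nhds h1)
    show ∀ᶠ s' in 𝓝 s, s' ∈ Icc (0 : ℝ) 1 → s' ≠ s → g s' ≠ 0 ∧ dir (g s') ∈ A
    filter_upwards [hcase, h2] with z hz hz2
    intro h3 h4
    obtain ⟨h5, h6, -, h7⟩ := hz h3 h4
    exact ⟨h5, h6.2 (h7.resolve_right hz2)⟩
  · right
    have h1 : dir (w s) ∉ A := fun h2 => (Set.disjoint_left.1 hAB) h2 h
    have h2 : ∀ᶠ z in 𝓝 s, dir (w z) ∉ A := hwd.eventually (hA.isOpen_compl.mem_nhds h1)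
    show ∀ᶠ s' in 𝓝 s, s' ∈ Icc (0 : ℝ) 1 → s' ≠ s → g s' ≠ 0 ∧ dir (g s') ∈ B
    filter_upwards [hcase, h2] with z hz hz2
    intro h3 h4
    obtain ⟨h5, -, h6, h7⟩ := hz h3 h4
    exact ⟨h5, h6.2 (h7.resolve_left hz2)⟩

/-- The directions along an analytic curve stay in the first set. -/
theorem conn {g : ℝ → V} (hg : ∀ s ∈ Icc (0 : ℝ) 1, AnalyticAt ℝ g s) (h0 : g 0 ≠ 0)
    (h1 : g 1 ≠ 0) {A B : Set V} (hA : IsClosed A) (hB : IsClosed B) (hAs : ∀ w ∈ A, -w ∈ A)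
    (hBs : ∀ w ∈ B, -w ∈ B) (hAB : Disjoint A B)
    (hcov : ∀ s ∈ Icc (0 : ℝ) 1, g s ≠ 0 → dir (g s) ∈ A ∪ B) (hg0 : dir (g 0) ∈ A) :
    dir (g 1) ∈ A := by
  have i0 : (0 : ℝ) ∈ Icc (0 : ℝ) 1 := ⟨le_rfl, zero_le_one⟩
  have i1 : (1 : ℝ) ∈ Icc (0 : ℝ) 1 := ⟨zero_le_one, le_rfl⟩
  have hgO : AnalyticOnNhd ℝ g (Icc (0 : ℝ) 1) := hg
  have hne : ∀ s ∈ Icc (0 : ℝ) 1, ¬ ∀ᶠ z in 𝓝 s, g z = 0 := by
    intro s hs hz
    exact h0 (hgO.eqOn_zero_of_preconnected_of_eventuallyEq_zero isPreconnected_Icc hs hz i0)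
  have hor : ∀ s ∈ Icc (0 : ℝ) 1, s ∈ UU g A ∨ s ∈ UU g B := fun s hs =>
    UU_or hA hB hAs hBs hAB hcov hs (hg s hs) (hne s hs)
  have hA0 : (0 : ℝ) ∈ UU g A := by
    rcases hor 0 i0 with h | h
    · exact h
    · exact absurd (of_UU hB i0 (hg 0 i0).continuousAt h0 h) (Set.disjoint_left.1 hAB hg0)
  rcases hor 1 i1 with h | h
  · exact of_UU hA i1 (hg 1 i1).continuousAt h1 h
  · exfalso
    obtain ⟨s, hs, hsA, hsB⟩ := isPreconnected_Icc (UU g A) (UU g B) (isOpen_UU g A)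
      (isOpen_UU g B) (fun s hs => hor s hs) ⟨0, i0, hA0⟩ ⟨1, i1, h⟩
    have := nebot hs
    obtain ⟨z, hz1, hz2⟩ := ((UU_ev hsA).and (UU_ev hsB)).exists
    exact Set.disjoint_left.1 hAB hz1.2 hz2.2

end Pool.Agent.J4H12.VA
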