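import Pool.Agent.Q95.CL.GoodL
import Pool.Agent.Q85.CL.Defs3

/-!
The vorticity of a local solution of the Navier-Stokes equations is analytic in the interior at
positive times (statement `StmGdL` of project CL).
-/

set_option autoImplicit false

open MeasureTheory Set Metric Filter Topology
open scoped ContDiff ENNReal

namespace Pool.Agent.J4H12.VA

open H459R3.NS W221.NS W221.NS.B
open Pool.Agent.TH305.LW (Pth ms MollP pth_exists pth_speed2)
open Pool.Agent.TH305.DR (SS ST Om SS_succ SS_zero)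
open Pool.Agent.Q85.CC (SQ cur Gd hgt pr2)
open Pool.Agent.Q85.CL (LSl StmGdL)
open Pool.Agent.Q26.CC
open Pool.Agent.Q95.CL

lemma ev_lt {f : ℝ → ℝ} (hf : Continuous f) {b : ℝ} (h : f 0 < b) :
    ∀ᶠ q in 𝓝[>] (0 : ℝ), f q < b :=
  (hf.continuousAt.eventually_lt continuousAt_const h).filter_mono nhdsWithin_le_nhds

theorem gdL : StmGdL := by
  obtain ⟨εt, hεt, c, hc, hloc0⟩ := Pool.Agent.Y302.AN.t_loca Pool.Agent.Y455.AN.t_ead
    Pool.Agent.Y7.a_pta Pool.Agent.Y475.AN.t_hara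
  have hloc : LocaP εt c := fun v q h1 h2 h3 n t ht x hx => (hloc0 v q h1 h2 h3 n t ht x hx).1
  obtain ⟨CM, hCM, hmol, -⟩ := Pool.Agent.TH305.LW.gen_all
  intro T E O u p hT hsol t ht y hy
  have hE0 : 0 ≤ E := by
    refine le_trans (setIntegral_nonneg hsol.openO.measurableSet fun x _ => ?_)
      (hsol.en (T / 2) ⟨by linarith, by linarith⟩)
    unfold nsq
    exact Finset.sum_nonneg fun i _ => by positivity
  obtain ⟨ρ₀, hρ₀, hO⟩ := nhds_basis_closedBall.mem_iff.1 (hsol.openO.mem_nhds hy)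
  obtain ⟨ζ, κ, hκ, -, hζ1, hL⟩ := cut_exists hsol hE0 hρ₀ hO
  have hL3 := lsol3_of hL
  have hG : IsOpen (ball y (7 / 8 * ρ₀)) := isOpen_ball
  have hζG : ∀ x ∈ ball y (7 / 8 * ρ₀), ζ x = 1 := fun x hx => hζ1 x (ball_subset_closedBall hx)
  have hEs : 0 ≤ √E := Real.sqrt_nonneg E
  obtain ⟨U, hU⟩ : ∃ U : ℝ → V → V, U = fun t x => ζ x • u t x := ⟨_, rfl⟩
  rw [← hU] at hL hL3
  have hu : ContDiffOn ℝ ∞ (fun z : ℝ × V => U z.1 z.2) (Ioo 0 T ×ˢ univ) := hL.smooth_u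
  -- a bound of the gradient
  have hcont : ContinuousOn (fun w : ℝ × V => gsq (U w.1) w.2) (Ioo 0 T ×ˢ univ) :=
    W335.MD.gsq_cont hu
  obtain ⟨G, hGb⟩ : ∃ G : ℝ, ∀ τ ∈ Icc (t / 2) t, ∀ z ∈ closedBall y 1, gsq (U τ) z ≤ G := by
    have hK : IsCompact (Icc (t / 2) t ×ˢ closedBall y 1) :=
      isCompact_Icc.prod (isCompact_closedBall y 1)
    obtain ⟨G, hG⟩ := hK.exists_bound_of_continuousOn (hcont.mono (by
      rintro ⟨τ, z⟩ ⟨h1, -⟩
      exact ⟨⟨by linarith [h1.1, ht.1], lt_of_le_of_lt h1.2 ht.2⟩, mem_univ _⟩))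
    exact ⟨G, fun τ hτ z hz => (le_abs_self _).trans (hG (τ, z) ⟨hτ, hz⟩)⟩
  have hG0 : 0 ≤ G := le_trans (by unfold gsq; positivity)
    (hGb t ⟨by linarith [ht.1], le_rfl⟩ y (mem_closedBall_self zero_le_one))
  -- the scale
  have ev : ∀ᶠ q in 𝓝[>] (0 : ℝ), 0 < q ∧ 3 * q ^ 2 < t / 2 ∧
      2 * CM * √E * √q + 8 * q < min 1 (7 / 8 * ρ₀) ∧ 4096 * G * q ^ 4 < εt := by
    filter_upwards [self_mem_nhdsWithin,
      ev_lt (f := fun q => 3 * q ^ 2) (b := t / 2) (by fun_prop) (by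
        have := half_pos ht.1
        norm_num
        exact ht.1),
      ev_lt (f := fun q => 2 * CM * √E * √q + 8 * q) (b := min 1 (7 / 8 * ρ₀)) (by fun_prop)
        (by simp [hρ₀]),
      ev_lt (f := fun q => 4096 * G * q ^ 4) (by fun_prop) (by simpa using hεt)] with q h1 h2 h3 h4
    exact ⟨h1, h2, h3, h4⟩
  obtain ⟨q, hq, hq1, hq2, hq3⟩ := ev.exists
  have hq2a : 2 * CM * √E * √q + 8 * q < 1 := hq2.trans_le (min_le_left _ _)
  have hq2b : 2 * CM * √E * √q + 8 * q < 7 / 8 * ρ₀ := hq2.trans_le (min_le_right _ _)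
  have hqq : 0 < q ^ 2 := by positivity
  obtain ⟨α, hαd⟩ : ∃ α, α = t - 2 * q ^ 2 := ⟨_, rfl⟩
  have hα : 0 < α := by rw [hαd]; linarith [ht.1]
  have hαt : α < t - q ^ 2 := by rw [hαd]; linarith
  obtain ⟨Y, hY, hYt⟩ := pth_exists hmol hκ hEs hL3 hq hα (by linarith : α < t) ht.2 y
  have hYd : ∀ τ ∈ Ioc (t - q ^ 2) t, ‖y - Y τ‖ ≤ 2 * CM * √E * √q := by
    intro τ hτ
    have h1 := pth_speed2 hCM hmol hκ hEs hL3 hq le_rfl hα ht.2 hY (a := τ) (b := t)
      (hαt.trans hτ.1) hτ.2 le_rfl (by linarith [hτ.1])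
    rwa [hYt] at h1
  have hms : ms U q Y (t - q ^ 2) t ≤ εt := by
    have hB : ∀ τ ∈ Set.uIoc (t - q ^ 2) t, ‖B2 (Y τ) (8 * q) (U τ)‖ ≤ G * (2 * (8 * q)) ^ 3 := by
      intro τ hτ
      rw [uIoc_of_le (by linarith)] at hτ
      have h1 := hYd τ hτ
      have hsub : ∀ z ∈ ball (Y τ) (8 * q), ‖gsq (U τ) z‖ ≤ G := by
        intro z hz
        have h2 : 0 ≤ gsq (U τ) z := by unfold gsq; positivity
        rw [Real.norm_eq_abs, abs_of_nonneg h2]
        refine hGb τ ⟨by linarith [hτ.1], hτ.2⟩ z ?_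
        rw [mem_closedBall]
        have h3 := dist_triangle z (Y τ) y
        rw [mem_ball] at hz
        rw [dist_comm (Y τ) y, dist_eq_norm y (Y τ)] at h3
        linarith
      have h3 := norm_setIntegral_le_of_norm_le_const (μ := volume) (s := ball (Y τ) (8 * q))
        (f := gsq (U τ)) (C := G) measure_ball_lt_top hsub
      have h4 : volume.real (ball (Y τ) (8 * q)) = (2 * (8 * q)) ^ 3 := by
        rw [Measure.real, Real.volume_pi_ball _ (by positivity), Fintype.card_fin,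
          ENNReal.toReal_ofReal (by positivity)]
      rw [h4] at h3
      exact h3
    have h1 := intervalIntegral.norm_integral_le_of_norm_le_const hB
    have h2 : |t - (t - q ^ 2)| = q ^ 2 := by
      rw [sub_sub_cancel, abs_of_pos hqq]
    rw [h2] at h1
    have h3 : ms U q Y (t - q ^ 2) t ≤ q⁻¹ * (G * (2 * (8 * q)) ^ 3 * q ^ 2) := by
      unfold ms
      exact mul_le_mul_of_nonneg_left ((Real.le_norm_self _).trans h1) (inv_nonneg.2 hq.le)
    have h4 : q⁻¹ * (G * (2 * (8 * q)) ^ 3 * q ^ 2) = 4096 * G * q ^ 4 := by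
      field_simp
      ring
    linarith
  have key := loc_endG hloc hL hq hα hαt ht.2 hY hYt (fun τ hτ => by
    apply ball_subset_ball'
    rw [dist_comm, dist_eq_norm]
    linarith [hYd τ ⟨hτ.1, hτ.2.le⟩]) hms
  refine ⟨c, q / 16, hc, by positivity, ?_⟩
  intro z hz n i j
  have hq8 : q / 16 ≤ 7 / 8 * ρ₀ := by
    have : 0 ≤ 2 * CM * √E * √q := by positivity
    linarith
  have hz2 : z ∈ ball y (7 / 8 * ρ₀) := ball_subset_ball hq8 hz
  have h1 := key z hz n i j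
  rw [hU, om_cutG hG hζG u t hz2 n i j] at h1
  rw [SQ_eq]
  refine (show SS n (cur i j (u t)) z ≤ _ from h1).trans ?_
  have hc0 : 0 < c := by linarith
  apply pow_le_pow_left₀ (by positivity)
  apply div_le_div_of_nonneg_left (by positivity) (by positivity)
  apply pow_le_pow_left₀ (by positivity)
  linarith

end Pool.Agent.J4H12.VA
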